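import Mathlib

set_option autoImplicit false
set_option maxRecDepth 1000000

namespace Pool.Agent.Results.MP_69d63a_nt.Witness

/-- The `n`-th prime gap, primes indexed from zero. -/
noncomputable def g (n : ℕ) : ℤ := (Nat.nth Nat.Prime n : ℤ) - Nat.nth Nat.Prime (n - 1)

/-- The up/down score. -/
noncomputable def a (n : ℕ) : ℤ := ∑ k ∈ Finset.Icc 2 n, Int.sign (g k - g (k - 1))

noncomputable def force {α : Type} (x : ℕ) (f : ℕ → α) : α :=
  Nat.rec (motive := fun _ => α) (f 0) (fun i _ => f (Nat.succ i)) x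

theorem force_eq {α : Type} (x : ℕ) (f : ℕ → α) : force x f = f x := by cases x <;> rfl

noncomputable def upd (u x y : ℕ) : ℕ :=
  Bool.rec (Nat.add u 2) (Bool.rec u (Nat.add u 1) (Nat.beq x y)) (Nat.ble y x)

noncomputable def run (Q c : ℕ) (T : ℕ → ℕ → ℕ → ℕ → ℕ → Bool) : ℕ → ℕ → ℕ → ℕ → ℕ → Bool :=
  Nat.rec (motive := fun _ => ℕ → ℕ → ℕ → ℕ → ℕ → Bool) T
    (fun _ ih m n p x u => Bool.rec (force (Nat.add m 2) fun m' => ih m' n p x u)
      (force (Nat.add n 1) fun n' => force (Nat.sub m p) fun x' => force (upd u x x') fun u' =>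
        force (Nat.add m 2) fun m' => ih m' n' m x' u') (Nat.beq (Nat.gcd m Q) 1)) c

def Inv (m n p x u : ℕ) : Prop :=
  m % 2 = 1 ∧ 3 ≤ m ∧ 1 ≤ n ∧ Nat.count Nat.Prime m = n + 1 ∧ Nat.nth Nat.Prime n = p ∧
    g n = x ∧ a n + n = u

theorem test (B m : ℕ) (h0 : 3 ≤ m) (h1 : B < m) (h2 : m < (B + 1) ^ 2) :
    Nat.gcd m B.factorial = 1 ↔ m.Prime := by
  constructor
  · intro h
    by_contra hq
    have h3 : m.minFac ^ 2 ≤ m := Nat.minFac_sq_le_self (by omega) hq
    have h4 : m.minFac < B + 1 := lt_of_pow_lt_pow_left₀ 2 (by omega) (h3.trans_lt h2)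
    have h5 : m.minFac.Prime := Nat.minFac_prime (by omega)
    have h6 := Nat.dvd_gcd (Nat.minFac_dvd m) ((h5.dvd_factorial).2 (Nat.lt_succ_iff.1 h4))
    rw [h] at h6
    exact h5.one_lt.ne' (Nat.dvd_one.1 h6)
  · intro h
    exact (Nat.Prime.coprime_iff_not_dvd h).2 fun h3 => absurd (h.dvd_factorial.1 h3) (by omega)

theorem cnt2 (m : ℕ) (h : m % 2 = 1) (h0 : 3 ≤ m) :
    Nat.count Nat.Prime (m + 2) = Nat.count Nat.Prime m + if m.Prime then 1 else 0 := by
  have : ¬ (m + 1).Prime := fun hp => by
    rcases hp.eq_two_or_odd with h1 | h1 <;> omega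
  rw [Nat.count_succ, Nat.count_succ, if_neg this, add_zero]

theorem sound (B c : ℕ) (T : ℕ → ℕ → ℕ → ℕ → ℕ → Bool) : ∀ m n p x u, B < m →
    m + 2 * c ≤ (B + 1) ^ 2 → Inv m n p x u → run B.factorial c T m n p x u = true →
    ∃ m n p x u, Inv m n p x u ∧ T m n p x u = true := by
  induction c with
  | zero => exact fun m n p x u _ _ h h' => ⟨m, n, p, x, u, h, h'⟩
  | succ c ih =>
    intro m n p x u h1 h2 ⟨i1, i2, i3, i4, i5, i6, i7⟩ h
    have e : run B.factorial (c + 1) T m n p x u = Bool.rec
      (force (Nat.add m 2) fun m' => run B.factorial c T m' n p x u)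
      (force (Nat.add n 1) fun n' => force (Nat.sub m p) fun x' => force (upd u x x') fun u' =>
        force (Nat.add m 2) fun m' => run B.factorial c T m' n' m x' u')
      (Nat.beq (Nat.gcd m B.factorial) 1) := rfl
    rw [e] at h
    simp only [force_eq] at h
    have ht := test B m i2 h1 (by omega)
    have hc := cnt2 m i1 i2
    cases hb : Nat.beq (Nat.gcd m B.factorial) 1 with
    | false =>
      rw [hb] at h
      have : ¬ m.Prime := fun hp => by rw [ht.2 hp] at hb; exact absurd hb (by decide)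
      rw [if_neg this] at hc
      exact ih (m + 2) n p x u (by omega) (by omega)
        ⟨by omega, by omega, i3, by omega, i5, i6, i7⟩ h
    | true =>
      rw [hb] at h
      have hp : m.Prime := ht.1 (Nat.eq_of_beq_eq_true hb)
      rw [if_pos hp] at hc
      have e1 : Nat.nth Nat.Prime (n + 1) = m := by rw [← i4]; exact Nat.nth_count hp
      have e2 : p < m := by
        rw [← e1, ← i5]; exact Nat.nth_strictMono Nat.infinite_setOfPred_prime (Nat.lt_succ_self n)
      have e3 : g (n + 1) = ((m - p : ℕ) : ℤ) := by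
        rw [g, e1, Nat.add_sub_cancel, i5, Nat.cast_sub e2.le]
      refine ih (m + 2) (n + 1) m (m - p) (upd u x (m - p)) (by omega) (by omega)
        ⟨by omega, by omega, by omega, by omega, e1, e3, ?_⟩ h
      rw [a, Finset.sum_Icc_succ_top (by omega), Nat.add_sub_cancel, e3, i6]
      have i8 : ∑ k ∈ Finset.Icc 2 n, Int.sign (g k - g (k - 1)) = u - n := by
        rw [← i7, a]; ring
      rw [i8]
      generalize m - p = y
      unfold upd
      rcases lt_trichotomy x y with h3 | rfl | h3
      · have : Nat.ble y x = false := Bool.eq_false_iff.2 fun h => absurd (Nat.le_of_ble_eq_true h) (by omega)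
        rw [this, Int.sign_eq_one_of_pos (by omega)]
        show _ = ((u + 2 : ℕ) : ℤ)
        push_cast; ring
      · have h4 : Nat.ble x x = true := by simp
        have h5 : Nat.beq x x = true := by simp
        rw [h4, h5, sub_self, Int.sign_zero]
        show _ = ((u + 1 : ℕ) : ℤ)
        push_cast; ring
      · have h4 : Nat.ble y x = true := by simpa using h3.le
        have h5 : Nat.beq x y = false := Bool.eq_false_iff.2 fun h => h3.ne' (Nat.eq_of_beq_eq_true h)
        rw [h4, h5, Int.sign_eq_neg_one_of_neg (by omega)]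
        show _ = ((u : ℕ) : ℤ)
        push_cast; ring

def fin (m n p x u m' n' p' x' u' : ℕ) : Bool :=
  Nat.beq m' m && Nat.beq n' n && Nat.beq p' p && Nat.beq x' x && Nat.beq u' u

theorem chunk (B c m n p x u m' n' p' x' u' : ℕ) (h1 : B < m) (h2 : m + 2 * c ≤ (B + 1) ^ 2)
    (h : Inv m n p x u)
    (hr : (force B.factorial fun Q => run Q c (fin m' n' p' x' u') m n p x u) = true) :
    Inv m' n' p' x' u' := by
  rw [force_eq] at hr
  obtain ⟨m, n, p, x, u, h, h'⟩ := sound B c _ m n p x u h1 h2 h hr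
  simp only [fin, Bool.and_eq_true, Nat.beq_eq] at h'
  obtain ⟨⟨⟨⟨rfl, rfl⟩, rfl⟩, rfl⟩, rfl⟩ := h'
  exact h

theorem c0 : Inv 5 1 3 1 1 :=
  ⟨rfl, by norm_num, le_rfl, by decide, Nat.nth_prime_one_eq_three,
    by simp [g, Nat.nth_prime_one_eq_three], by simp [a]⟩

theorem c1 : Inv 25 8 23 4 10 :=
  chunk 4 10 5 1 3 1 1 _ _ _ _ _ (by norm_num) (by norm_num) c0 (by decide +kernel)

theorem c2 : Inv 625 113 619 2 116 :=
  chunk 24 300 25 8 23 4 10 _ _ _ _ _ (by norm_num) (by norm_num) c1 (by decide +kernel)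

theorem c3 : Inv 100001 9591 99991 2 9661 :=
  chunk 624 49688 625 113 619 2 116 _ _ _ _ _ (by norm_num) (by norm_num) c2 (by decide +kernel)

theorem c4 : Inv 300001 25996 299993 10 26029 :=
  chunk 1915 100000 100001 9591 99991 2 9661 _ _ _ _ _ (by norm_num) (by norm_num) c3 (by decide +kernel)

theorem c5 : Inv 500001 41537 499979 6 41528 :=
  chunk 1915 100000 300001 25996 299993 10 26029 _ _ _ _ _ (by norm_num) (by norm_num) c4 (by decide +kernel)

theorem c6 : Inv 700001 56542 699967 6 56594 :=
  chunk 1915 100000 500001 41537 499979 6 41528 _ _ _ _ _ (by norm_num) (by norm_num) c5 (by decide +kernel)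

theorem c7 : Inv 900001 71273 899981 10 71342 :=
  chunk 1915 100000 700001 56542 699967 6 56594 _ _ _ _ _ (by norm_num) (by norm_num) c6 (by decide +kernel)

theorem c8 : Inv 1100001 85713 1099997 36 85850 :=
  chunk 1915 100000 900001 71273 899981 10 71342 _ _ _ _ _ (by norm_num) (by norm_num) c7 (by decide +kernel)

theorem c9 : Inv 1300001 100020 1299989 10 100154 :=
  chunk 1915 100000 1100001 85713 1099997 36 85850 _ _ _ _ _ (by norm_num) (by norm_num) c8 (by decide +kernel)

theorem c10 : Inv 1500001 114154 1499977 14 114260 :=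
  chunk 1915 100000 1300001 100020 1299989 10 100154 _ _ _ _ _ (by norm_num) (by norm_num) c9 (by decide +kernel)

theorem c11 : Inv 1700001 128140 1699993 24 128146 :=
  chunk 1915 100000 1500001 114154 1499977 14 114260 _ _ _ _ _ (by norm_num) (by norm_num) c10 (by decide +kernel)

theorem c12 : Inv 1900001 142028 1899983 34 141969 :=
  chunk 1915 100000 1700001 128140 1699993 24 128146 _ _ _ _ _ (by norm_num) (by norm_num) c11 (by decide +kernel)

theorem c13 : Inv 2100001 155804 2099963 22 155676 :=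
  chunk 1915 100000 1900001 142028 1899983 34 141969 _ _ _ _ _ (by norm_num) (by norm_num) c12 (by decide +kernel)

theorem c14 : Inv 2300001 169510 2299963 12 169351 :=
  chunk 1915 100000 2100001 155804 2099963 22 155676 _ _ _ _ _ (by norm_num) (by norm_num) c13 (by decide +kernel)

theorem c15 : Inv 2500001 183071 2499997 8 182861 :=
  chunk 1915 100000 2300001 169510 2299963 12 169351 _ _ _ _ _ (by norm_num) (by norm_num) c14 (by decide +kernel)

theorem c16 : Inv 2700001 196644 2699999 10 196412 :=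
  chunk 1915 100000 2500001 183071 2499997 8 182861 _ _ _ _ _ (by norm_num) (by norm_num) c15 (by decide +kernel)

theorem c17 : Inv 2900001 210108 2899997 4 209871 :=
  chunk 1915 100000 2700001 196644 2699999 10 196412 _ _ _ _ _ (by norm_num) (by norm_num) c16 (by decide +kernel)

theorem c18 : Inv 3100001 223491 3099997 20 223296 :=
  chunk 1915 100000 2900001 210108 2899997 4 209871 _ _ _ _ _ (by norm_num) (by norm_num) c17 (by decide +kernel)

theorem c19 : Inv 3300001 236899 3299969 12 236735 :=
  chunk 1915 100000 3100001 223491 3099997 20 223296 _ _ _ _ _ (by norm_num) (by norm_num) c18 (by decide +kernel)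

theorem c20 : Inv 3500001 250149 3499999 26 250016 :=
  chunk 1915 100000 3300001 236899 3299969 12 236735 _ _ _ _ _ (by norm_num) (by norm_num) c19 (by decide +kernel)

theorem c21 : Inv 3666583 261150 3666581 42 261151 :=
  chunk 1915 83291 3500001 250149 3499999 26 250016 _ _ _ _ _ (by norm_num) (by norm_num) c20 (by decide +kernel)

theorem result : ∃ n : ℕ, 250000 < n ∧ 0 < a n := by
  refine ⟨261150, by norm_num, ?_⟩
  have := c21.2.2.2.2.2.2
  push_cast at this
  omega

end Pool.Agent.Results.MP_69d63a_nt.Witness
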